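import Pool.Agent.Helper36.CV.StmtsG

set_option autoImplicit false

/-! Module G1: the lengths of deep end pieces depend on the coupling (Cauchy estimates). -/

namespace Pool.Agent.Helper36.CV

open Filter Topology

/-- the disc of radius `x / 8` around a real `x > 2 L0` is contained in the region -/
theorem g1_disc {L0 x : ℝ} (hx0 : 0 < x) (hx : 2 * L0 < x) {l : ℂ} (hl : ‖l - x‖ ≤ x / 8) :
    l ∈ Om2 L0 ∧ 7 / 8 * x ≤ ‖l‖ := by
  have h1 : ‖(x : ℂ)‖ = x := by
    rw [Complex.norm_real, Real.norm_of_nonneg hx0.le]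
  have h2 : ‖l‖ ≤ ‖(x : ℂ)‖ + ‖l - x‖ := by
    calc ‖l‖ = ‖(x : ℂ) + (l - x)‖ := by congr 1; ring
      _ ≤ _ := norm_add_le _ _
  have h3 : ‖(x : ℂ)‖ ≤ ‖l‖ + ‖l - x‖ := by
    calc ‖(x : ℂ)‖ = ‖l - (l - x)‖ := by congr 1; ring
      _ ≤ _ := norm_sub_le _ _
  have h4 : x - l.re ≤ ‖l - x‖ := by
    have h5 := Complex.abs_re_le_norm (l - x)
    rw [Complex.sub_re, Complex.ofReal_re] at h5
    have h6 := neg_abs_le (l.re - x)
    linarith
  rw [h1] at h2 h3
  refine ⟨⟨?_, ?_⟩, ?_⟩
  · linarith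
  · linarith
  · linarith

theorem g1_open (L0 : ℝ) : IsOpen (Om2 L0) := by
  have h1 : Om2 L0 = {l : ℂ | L0 < ‖l‖} ∩ {l : ℂ | ‖l‖ < 2 * l.re} := rfl
  rw [h1]
  exact (isOpen_lt continuous_const continuous_norm).inter
    (isOpen_lt continuous_norm (continuous_const.mul Complex.continuous_re))

theorem g1_real {L0 x : ℝ} (hx0 : 0 < x) (hx : 2 * L0 < x) : (x : ℂ) ∈ Om2 L0 := by
  refine (g1_disc hx0 hx (l := (x : ℂ)) ?_).1
  rw [sub_self, norm_zero]
  linarith

/-- derivative bound by the Cauchy estimate -/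
theorem g1_cauchy {c L0 x : ℝ} (hc : 1 ≤ c) (hx0 : 0 < x) (hx : 2 * L0 < x) (q : ℂ → ℂ)
    (hq : DifferentiableOn ℂ q (Om2 L0)) (hb : ∀ l ∈ Om2 L0, ‖q l - 1‖ ≤ c / ‖l‖) :
    ‖deriv q x‖ ≤ 10 * c / x ^ 2 := by
  have h1 : deriv q x = deriv (fun l => q l - 1) x := by
    rw [deriv_sub_const]
  have hR : 0 < x / 8 := by linarith
  have h2 : DiffContOnCl ℂ (fun l => q l - 1) (Metric.ball (x : ℂ) (x / 8)) := by
    apply DifferentiableOn.diffContOnCl
    rw [closure_ball _ hR.ne']
    intro l hl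
    have h3 : l ∈ Om2 L0 := by
      refine (g1_disc hx0 hx ?_).1
      rwa [Metric.mem_closedBall, dist_eq_norm] at hl
    exact (((hq l h3).differentiableAt ((g1_open L0).mem_nhds h3)).sub_const 1).differentiableWithinAt
  have h3 := Complex.norm_deriv_le_of_forall_mem_sphere_norm_le (C := c / (7 / 8 * x)) hR h2 (by
    intro z hz
    have h4 : ‖z - x‖ ≤ x / 8 := by
      rw [Metric.mem_sphere, dist_eq_norm] at hz
      exact hz.le
    obtain ⟨h5, h6⟩ := g1_disc hx0 hx h4
    refine (hb z h5).trans ?_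
    apply div_le_div_of_nonneg_left (by linarith) (by linarith) h6)
  rw [h1]
  refine h3.trans ?_
  have h7 : c / (7 / 8 * x) / (x / 8) = (64 / 7) * c / x ^ 2 := by
    field_simp
    ring
  rw [h7]
  apply div_le_div_of_nonneg_right _ (by positivity)
  linarith

/-- growth of the real part along the reals -/
theorem g1_mono {c L0 a b : ℝ} (hc : 1 ≤ c) (ha0 : 0 < a) (ha : 2 * L0 < a) (hab : a < b) (q : ℂ → ℂ)
    (hq : DifferentiableOn ℂ q (Om2 L0)) (hb : ∀ l ∈ Om2 L0, ‖q l - 1‖ ≤ c / ‖l‖) :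
    (q b).re - (q a).re ≤ 10 * c * (1 / a - 1 / b) := by
  have hd : ∀ x : ℝ, a ≤ x → HasDerivAt (fun y : ℝ => (q y).re + 10 * c * y⁻¹)
      ((deriv q x).re + 10 * c * (-(x ^ 2)⁻¹)) x := by
    intro x hx
    have hx0 : 0 < x := ha0.trans_le hx
    have h1 : HasDerivAt q (deriv q x) (x : ℂ) :=
      ((hq _ (g1_real hx0 (ha.trans_le hx))).differentiableAt
        ((g1_open L0).mem_nhds (g1_real hx0 (ha.trans_le hx)))).hasDerivAt
    exact h1.real_of_complex.add ((hasDerivAt_inv hx0.ne').const_mul (10 * c))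
  have h2 : AntitoneOn (fun y : ℝ => (q y).re + 10 * c * y⁻¹) (Set.Icc a b) := by
    apply antitoneOn_of_deriv_nonpos (convex_Icc a b)
    · intro x hx
      exact (hd x hx.1).continuousAt.continuousWithinAt
    · intro x hx
      rw [interior_Icc] at hx
      exact (hd x hx.1.le).differentiableAt.differentiableWithinAt
    · intro x hx
      rw [interior_Icc] at hx
      rw [(hd x hx.1.le).deriv]
      have hx0 : 0 < x := ha0.trans hx.1
      have h3 := g1_cauchy hc hx0 (ha.trans hx.1) q hq hb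
      have h4 : (deriv q x).re ≤ ‖deriv q x‖ := (le_abs_self _).trans (Complex.abs_re_le_norm _)
      have h5 : 10 * c / x ^ 2 = 10 * c * (x ^ 2)⁻¹ := div_eq_mul_inv _ _
      linarith
  have h6 := h2 (Set.left_mem_Icc.2 hab.le) (Set.right_mem_Icc.2 hab.le) hab.le
  simp only at h6
  rw [one_div, one_div]
  linarith

theorem g1_step {c L0 : ℝ} (hc : 1 ≤ c) (U : KM c L0) (v v' : Wd)
    (hr : ∀ l ∈ Om2 L0, ‖(U.hi v' l - U.lo v' l) / (U.hi v l - U.lo v l) * (2 * l) - 1‖ ≤ c / ‖l‖)
    {a b : ℝ} (h40 : 40 * c < a) (ha : 2 * L0 < a) (hab : a < b) :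
    1 / 2 * Real.log (b / a) ≤ (Real.log (len U v' a) - Real.log (len U v' b)) -
      (Real.log (len U v a) - Real.log (len U v b)) := by
  have ha0 : 0 < a := by linarith
  have hb0 : 0 < b := ha0.trans hab
  obtain ⟨q, hqd⟩ : ∃ q : ℂ → ℂ, q = fun l =>
    (U.hi v' l - U.lo v' l) / (U.hi v l - U.lo v l) * (2 * l) := ⟨_, rfl⟩
  have hq : DifferentiableOn ℂ q (Om2 L0) := by
    rw [hqd]
    apply DifferentiableOn.mul
    · apply DifferentiableOn.div
      · exact (U.an_h v').sub (U.an_l v')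
      · exact (U.an_h v).sub (U.an_l v)
      · intro l hl
        exact sub_ne_zero.2 (U.ne v l hl)
    · exact (differentiableOn_const _).mul differentiableOn_id
  have hb : ∀ l ∈ Om2 L0, ‖q l - 1‖ ≤ c / ‖l‖ := by
    rw [hqd]
    exact hr
  have hlen : ∀ x : ℝ, a ≤ x → ∀ u : Wd, 0 < len U u x ∧ U.hi u x - U.lo u x = ((len U u x : ℝ) : ℂ) := by
    intro x hx u
    have hxL : L0 < x := by
      rcases le_or_gt L0 0 with h | h
      · linarith
      · linarith
    constructor
    · have := (U.kd x hxL).lt u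
      unfold len
      linarith
    · apply Complex.ext
      · rw [Complex.sub_re, Complex.ofReal_re]
        rfl
      · rw [Complex.sub_im, Complex.ofReal_im, U.re_h u x hxL, U.re_l u x hxL, sub_zero]
  have hqr : ∀ x : ℝ, a ≤ x → (q x).re = len U v' x / len U v x * (2 * x) := by
    intro x hx
    rw [hqd]
    simp only
    rw [(hlen x hx v').2, (hlen x hx v).2]
    have : ((len U v' x : ℝ) : ℂ) / ((len U v x : ℝ) : ℂ) * (2 * (x : ℂ))
        = ((len U v' x / len U v x * (2 * x) : ℝ) : ℂ) := by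
      push_cast
      ring
    rw [this, Complex.ofReal_re]
  have hqa : 39 / 40 ≤ (q a).re := by
    have h1 := hb a (g1_real ha0 ha)
    rw [Complex.norm_real, Real.norm_of_nonneg ha0.le] at h1
    have h2 : c / a ≤ 1 / 40 := by
      rw [div_le_div_iff₀ ha0 (by norm_num)]
      linarith
    have h3 := Complex.abs_re_le_norm (q a - 1)
    rw [Complex.sub_re, Complex.one_re] at h3
    have h4 := neg_abs_le ((q a).re - 1)
    linarith
  have hqm := g1_mono hc ha0 ha hab q hq hb
  -- logarithms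
  have hlog : Real.log (b / a) ≥ 1 - a / b := by
    have h1 := Real.one_sub_inv_le_log_of_pos (div_pos hb0 ha0)
    rw [inv_div] at h1
    exact h1
  have hpa : 0 < (q a).re := by linarith
  have hpb : 0 < (q b).re := by
    rw [hqr b hab.le]
    have h1 := (hlen b hab.le v').1
    have h2 := (hlen b hab.le v).1
    positivity
  have h5 : Real.log (q b).re - Real.log (q a).re ≤ 1 / 2 * Real.log (b / a) := by
    rw [← Real.log_div hpb.ne' hpa.ne']
    have h6 := Real.log_le_sub_one_of_pos (div_pos hpb hpa)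
    have h7 : (q b).re / (q a).re - 1 = ((q b).re - (q a).re) / (q a).re := by
      field_simp
    have h8 : 1 / a - 1 / b = (1 - a / b) / a := by
      field_simp
    have h9 : (0 : ℝ) ≤ 1 - a / b := by
      rw [sub_nonneg, div_le_one hb0]
      exact hab.le
    have h10 : ((q b).re - (q a).re) / (q a).re ≤ 10 * c * ((1 - a / b) / a) * (40 / 39) := by
      rw [div_le_iff₀ hpa]
      rw [h8] at hqm
      have h11 : 0 ≤ 10 * c * ((1 - a / b) / a) := by positivity
      nlinarith
    have h12 : 10 * c * ((1 - a / b) / a) * (40 / 39) ≤ 1 / 2 * (1 - a / b) := by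
      have h13 : 10 * c * ((1 - a / b) / a) * (40 / 39) = (400 / 39) * (c / a) * (1 - a / b) := by
        ring
      rw [h13]
      have h14 : c / a ≤ 1 / 40 := by
        rw [div_le_div_iff₀ ha0 (by norm_num)]
        linarith
      apply mul_le_mul_of_nonneg_right _ h9
      linarith
    linarith
  have hl1 : Real.log (q a).re = Real.log (len U v' a) - Real.log (len U v a) + Real.log (2 * a) := by
    rw [hqr a le_rfl]
    have h1 := (hlen a le_rfl v').1
    have h2 := (hlen a le_rfl v).1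
    rw [Real.log_mul (div_pos h1 h2).ne' (by positivity), Real.log_div h1.ne' h2.ne']
  have hl2 : Real.log (q b).re = Real.log (len U v' b) - Real.log (len U v b) + Real.log (2 * b) := by
    rw [hqr b hab.le]
    have h1 := (hlen b hab.le v').1
    have h2 := (hlen b hab.le v).1
    rw [Real.log_mul (div_pos h1 h2).ne' (by positivity), Real.log_div h1.ne' h2.ne']
  have hl3 : Real.log (b / a) = Real.log (2 * b) - Real.log (2 * a) := by
    rw [Real.log_div hb0.ne' ha0.ne', Real.log_mul two_ne_zero hb0.ne',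
      Real.log_mul two_ne_zero ha0.ne']
    ring
  rw [hl1, hl2] at h5
  linarith

theorem g1_cr (i : Fin 3) (m : ℕ) (w : Wd) : cr i (m + 1) w = ch i (cr i m w) := rfl

theorem st_G1 : ST_G1 := by
  intro c hc
  refine ⟨40 * c, by linarith, ?_⟩
  intro L0 U w i hi a b ha ha2 hab R
  have ha0 : 0 < a := by linarith
  have hstep : ∀ m : ℕ, 1 / 2 * Real.log (b / a) ≤
      (Real.log (len U (cr i (m + 1) w) a) - Real.log (len U (cr i (m + 1) w) b)) -
      (Real.log (len U (cr i m w) a) - Real.log (len U (cr i m w) b)) := by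
    intro m
    have hi' : i = 0 ∨ i = 2 := by
      fin_cases i
      · exact Or.inl rfl
      · exact absurd rfl hi
      · exact Or.inr rfl
    rcases hi' with h | h
    · subst h
      rw [g1_cr]
      exact g1_step hc U _ _ (U.rL _) ha ha2 hab
    · subst h
      rw [g1_cr]
      exact g1_step hc U _ _ (U.rR _) ha ha2 hab
  have hind : ∀ m : ℕ, (Real.log (len U (cr i 0 w) a) - Real.log (len U (cr i 0 w) b)) +
      m * (1 / 2 * Real.log (b / a)) ≤
      Real.log (len U (cr i m w) a) - Real.log (len U (cr i m w) b) := by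
    intro m
    induction m with
    | zero => simp
    | succ m ih =>
      have := hstep m
      push_cast
      linarith
  have hd : 0 < 1 / 2 * Real.log (b / a) := by
    have : 0 < Real.log (b / a) := Real.log_pos (by rw [lt_div_iff₀ ha0]; linarith)
    linarith
  obtain ⟨m0, hm0⟩ := exists_nat_gt ((R - (Real.log (len U (cr i 0 w) a) -
    Real.log (len U (cr i 0 w) b))) / (1 / 2 * Real.log (b / a)))
  refine ⟨m0, ?_⟩
  intro m hm
  have h1 := hind m
  rw [div_lt_iff₀ hd] at hm0
  have h2 : (m0 : ℝ) * (1 / 2 * Real.log (b / a)) ≤ m * (1 / 2 * Real.log (b / a)) :=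
    mul_le_mul_of_nonneg_right (by exact_mod_cast hm) hd.le
  linarith

end Pool.Agent.Helper36.CV
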