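import Pool.Agent.Helper36.CV.StmtsQ

set_option autoImplicit false

/-! Module Q4: windows of gaps. -/

namespace Pool.Agent.Helper30.CV.Q4

open Complex Filter Topology MeasureTheory Set
open Pool.Agent.Helper36.CV

noncomputable section

/-- oscillation of `f` on horizontal lines -/
theorem osc (hA1 : ST_A1) (hP1 : ST_P1) {Hm Hp : ℝ} {C : Set ℝ} (cd : CD Hm Hp C)
    (x x' r : ℝ) (hr : 0 < r) :
    ‖cd.f ((x : ℂ) + (r : ℂ) * I) - cd.f ((x' : ℂ) + (r : ℂ) * I)‖ ≤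
      |x - x'| / r * ((Yf cd x r + Yf cd x' r) / 2) := by
  obtain ⟨A, hA⟩ := cd.growth
  have hz : ∀ y : ℝ, ((y : ℂ) + (r : ℂ) * I) ∈ Uo := by
    intro y
    simp [Uo, hr]
  have hgrow : ∀ z ∈ Uc, ‖cd.f z‖ ≤ (|A| + 1) * (1 + Real.log (1 + ‖z‖)) := by
    intro z hz
    have h1 := hA z hz
    have h2 : 0 ≤ Real.log (1 + ‖z‖) := Real.log_nonneg (by linarith [norm_nonneg z])
    have h3 := le_abs_self A
    have h4 := abs_nonneg A
    nlinarith [mul_nonneg h4 h2]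
  obtain ⟨-, h2⟩ := hA1 cd.f (|A| + 1) cd.cont cd.ana hgrow
  obtain ⟨hint, heq⟩ := h2 _ (hz x) _ (hz x')
  obtain ⟨p1, -⟩ := hP1 Hm Hp C cd
  obtain ⟨i1, e1⟩ := p1 x r hr
  obtain ⟨i2, e2⟩ := p1 x' r hr
  have hpi := Real.pi_pos
  have hpt : ∀ t : ℝ, ‖(((cd.f t).im : ℝ) : ℂ) * (1 / ((t : ℂ) - ((x : ℂ) + (r : ℂ) * I)) -
      1 / ((t : ℂ) - ((x' : ℂ) + (r : ℂ) * I)))‖ ≤
      |x - x'| / (2 * r) * (vf cd t * (r / ((t - x) ^ 2 + r ^ 2)) +
        vf cd t * (r / ((t - x') ^ 2 + r ^ 2))) := by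
    intro t
    have hv : 0 ≤ (cd.f t).im := cd.im_nonneg t
    have hn : ∀ y : ℝ, ‖(t : ℂ) - ((y : ℂ) + (r : ℂ) * I)‖ ^ 2 = (t - y) ^ 2 + r ^ 2 := by
      intro y
      rw [← Complex.normSq_eq_norm_sq, Complex.normSq_apply]
      simp
      ring
    have hne : ∀ y : ℝ, (t : ℂ) - ((y : ℂ) + (r : ℂ) * I) ≠ 0 := by
      intro y h
      have h3 := hn y
      rw [h] at h3
      simp only [norm_zero] at h3
      have : 0 < (t - y) ^ 2 + r ^ 2 := by positivity
      linarith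
    have hsub : 1 / ((t : ℂ) - ((x : ℂ) + (r : ℂ) * I)) - 1 / ((t : ℂ) - ((x' : ℂ) + (r : ℂ) * I)) =
        ((x - x' : ℝ) : ℂ) / (((t : ℂ) - ((x : ℂ) + (r : ℂ) * I)) *
          ((t : ℂ) - ((x' : ℂ) + (r : ℂ) * I))) := by
      rw [div_sub_div _ _ (hne x) (hne x')]
      congr 1
      push_cast
      ring
    rw [hsub, norm_mul, norm_div, norm_mul, Complex.norm_real, Complex.norm_real,
      Real.norm_eq_abs, Real.norm_eq_abs, abs_of_nonneg hv]
    set a := ‖(t : ℂ) - ((x : ℂ) + (r : ℂ) * I)‖ with ha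
    set b := ‖(t : ℂ) - ((x' : ℂ) + (r : ℂ) * I)‖ with hb
    have ha0 : 0 < a := norm_pos_iff.mpr (hne x)
    have hb0 : 0 < b := norm_pos_iff.mpr (hne x')
    have h5 : 1 / (a * b) ≤ (1 / a ^ 2 + 1 / b ^ 2) / 2 := by
      have h6 : (1 / a ^ 2 + 1 / b ^ 2) / 2 - 1 / (a * b) = (1 / a - 1 / b) ^ 2 / 2 := by
        field_simp
        ring
      have h7 : 0 ≤ (1 / a - 1 / b) ^ 2 / 2 := by positivity
      linarith
    rw [← hn x, ← hn x']
    have h8 : (cd.f t).im * (|x - x'| / (a * b)) =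
        (cd.f t).im * |x - x'| * (1 / (a * b)) := by ring
    have h9 : |x - x'| / (2 * r) * (vf cd t * (r / a ^ 2) + vf cd t * (r / b ^ 2)) =
        (cd.f t).im * |x - x'| * ((1 / a ^ 2 + 1 / b ^ 2) / 2) := by
      unfold vf
      field_simp
    rw [h8, h9]
    exact mul_le_mul_of_nonneg_left h5 (mul_nonneg hv (abs_nonneg _))
  rw [heq, norm_mul, Complex.norm_real, Real.norm_eq_abs, abs_of_pos (by positivity)]
  have h3 := norm_integral_le_of_norm_le ((i1.add i2).const_mul (|x - x'| / (2 * r)))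
    (Filter.Eventually.of_forall hpt)
  rw [integral_const_mul] at h3
  have h4 : ∫ t : ℝ, ((fun t => vf cd t * (r / ((t - x) ^ 2 + r ^ 2))) +
      fun t => vf cd t * (r / ((t - x') ^ 2 + r ^ 2))) t =
      Real.pi * (Yf cd x r + Yf cd x' r) := by
    rw [integral_add' i1 i2, e1, e2]
    generalize (∫ t : ℝ, vf cd t * (r / ((t - x) ^ 2 + r ^ 2))) = A
    generalize (∫ t : ℝ, vf cd t * (r / ((t - x') ^ 2 + r ^ 2))) = B
    field_simp
  rw [h4] at h3
  calc 1 / Real.pi * _ ≤ 1 / Real.pi * (|x - x'| / (2 * r) * (Real.pi * (Yf cd x r + Yf cd x' r))) :=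
        mul_le_mul_of_nonneg_left h3 (by positivity)
    _ = |x - x'| / r * ((Yf cd x r + Yf cd x' r) / 2) := by
        field_simp

theorem c_mem {Hm Hp : ℝ} {C : Set ℝ} {cd : CD Hm Hp C} (V : Gap cd) : V.c ∈ Icc V.a V.b := by
  have := V.lt
  constructor
  · unfold Gap.c
    linarith
  · unfold Gap.c
    linarith

theorem s_pos {Hm Hp : ℝ} {C : Set ℝ} {cd : CD Hm Hp C} (V : Gap cd) : 0 < V.s := by
  have := V.lt
  unfold Gap.s
  linarith

theorem st_Q4 (hA1 : ST_A1) (hP1 : ST_P1) (hP2 : ST_P2) (hP3 : ST_P3) : ST_Q4 := by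
  intro ε Hm Hp C cd hpar hε
  obtain ⟨hε0, hHm, hHp⟩ := hpar
  obtain ⟨q1, q2, q3, q4, q5, q6, q7, q8, q9, -⟩ := hP2 Hm Hp C cd hHm
  obtain ⟨p1, p2, p3, p4, p5, p6⟩ := hP1 Hm Hp C cd
  have h5 : (0 : ℝ) < Real.sqrt 5 := Real.sqrt_pos.mpr (by norm_num)
  have hmu : ∀ V : Gap cd, |V.mu| = Real.sqrt 5 * |(V.m : ℝ)| := by
    intro V
    unfold Gap.mu
    rw [abs_mul, abs_of_pos h5]
  have hmu0 : ∀ V : Gap cd, 0 < |V.mu| := by
    intro V
    rw [hmu]
    have h := (q4 V).1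
    have : (0 : ℝ) < |(V.m : ℝ)| := abs_pos.mpr (by exact_mod_cast h)
    positivity
  have hmv : ∀ (V : Gap cd), ∀ t ∈ Icc V.a V.b, |V.mu| * vf cd t ≤ ε * (1 + 98 * ε) / 4 := by
    intro V t ht
    have h := (q4 V).2.2.2.1 t ht
    rw [hmu]
    nlinarith
  -- part 1
  have r1 : ∀ (V : Gap cd) (r t : ℝ), 0 ≤ r → |t - V.c| ≤ r →
      |Nf cd t - V.N| ≤ 7 * Real.sqrt (r ^ 2 + V.s ^ 2 / 4) * V.kk := by
    intro V r t hr ht
    have hk : 0 < V.kk := (q4 V).2.2.2.2.2.1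
    have hlab : ∀ t ∈ Icc V.a V.b, Nf cd t = V.N := V.lab
    rcases hr.eq_or_lt with h0 | hr0
    · have h1 : t = V.c := by
        rw [← h0] at ht
        have := abs_nonpos_iff.mp ht
        linarith
      rw [h1, hlab _ (c_mem V), sub_self, abs_zero]
      positivity
    · obtain ⟨-, -, h3⟩ := hP3 Hm Hp C cd V.a V.b V.N V.lt hlab
      have h4 := h3 r hr0
      have e1 : (((V.a + V.b) / 2 : ℝ) : ℂ) = (V.c : ℂ) := rfl
      have e2 : V.b - V.a = V.s := rfl
      have e3 : KI cd V.a V.b ((V.a + V.b) / 2) = V.kk := rfl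
      rw [e1, e2, e3] at h4
      have hY : Yf cd V.c r ≤ Real.sqrt (r ^ 2 + V.s ^ 2 / 4) * V.kk := by
        refine le_trans ?_ h4
        have h6 := Complex.im_le_norm (cd.f ((V.c : ℂ) + (r : ℂ) * I) - (V.N : ℂ))
        have h7 : (cd.f ((V.c : ℂ) + (r : ℂ) * I) - (V.N : ℂ)).im = Yf cd V.c r := by
          rw [Complex.sub_im, Complex.ofReal_im, sub_zero]
          rfl
        rw [h7] at h6
        exact h6
      have hre : |(cd.f ((V.c : ℂ) + (r : ℂ) * I)).re - V.N| ≤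
          Real.sqrt (r ^ 2 + V.s ^ 2 / 4) * V.kk := by
        refine le_trans ?_ h4
        have h6 := Complex.abs_re_le_norm (cd.f ((V.c : ℂ) + (r : ℂ) * I) - (V.N : ℂ))
        have h7 : (cd.f ((V.c : ℂ) + (r : ℂ) * I) - (V.N : ℂ)).re =
            (cd.f ((V.c : ℂ) + (r : ℂ) * I)).re - V.N := by
          rw [Complex.sub_re, Complex.ofReal_re]
        rw [h7] at h6
        exact h6
      have ht1 : Yf cd t r ≤ 3 * Yf cd V.c r := by
        have h6 := p4 V.c t r hr0 (by rw [abs_sub_comm]; linarith)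
        have hY0 : 0 < Yf cd V.c r := (p3 V.c r r hr0 le_rfl).1
        have h7 : |V.c - t| / r ≤ 1 := by
          rw [div_le_one hr0, abs_sub_comm]
          exact ht
        have h8 : 0 ≤ |V.c - t| / r := by positivity
        have h9 : (|V.c - t| / r) ^ 2 ≤ 1 := by nlinarith
        refine h6.trans ?_
        have : 1 + |V.c - t| / r + (|V.c - t| / r) ^ 2 ≤ 3 := by linarith
        exact mul_le_mul_of_nonneg_right this hY0.le
      have hosc := osc hA1 hP1 cd t V.c r hr0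
      have hosc2 : |(cd.f ((t : ℂ) + (r : ℂ) * I)).re - (cd.f ((V.c : ℂ) + (r : ℂ) * I)).re| ≤
          2 * Yf cd V.c r := by
        have h6 := Complex.abs_re_le_norm
          (cd.f ((t : ℂ) + (r : ℂ) * I) - cd.f ((V.c : ℂ) + (r : ℂ) * I))
        rw [Complex.sub_re] at h6
        refine h6.trans (hosc.trans ?_)
        have hY0 : 0 < Yf cd V.c r := (p3 V.c r r hr0 le_rfl).1
        have hY1 : 0 < Yf cd t r := (p3 t r r hr0 le_rfl).1
        have h7 : |t - V.c| / r ≤ 1 := by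
          rw [div_le_one hr0]
          exact ht
        have h8 : 0 ≤ |t - V.c| / r := by positivity
        calc |t - V.c| / r * ((Yf cd t r + Yf cd V.c r) / 2)
            ≤ 1 * ((Yf cd t r + Yf cd V.c r) / 2) :=
              mul_le_mul_of_nonneg_right h7 (by linarith)
          _ ≤ 2 * Yf cd V.c r := by linarith
      have h10 := p5 t r hr0
      have h11 : 0 ≤ Real.sqrt (r ^ 2 + V.s ^ 2 / 4) * V.kk := by positivity
      rw [abs_le] at h10 hosc2 hre ⊢
      constructor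
      · nlinarith [h10.1, h10.2, hosc2.1, hosc2.2, hre.1, hre.2]
      · nlinarith [h10.1, h10.2, hosc2.1, hosc2.2, hre.1, hre.2]
  -- part 2
  have r2 : ∀ V : Gap cd, |V.mu| * V.kk * V.s ≤ ε / 2 * (1 + 98 * ε) := by
    intro V
    have hs := s_pos V
    have hk : V.kk = 2 * vf cd V.c / V.s := (q4 V).2.2.2.2.1
    have h1 := hmv V V.c (c_mem V)
    have h2 : V.kk * V.s = 2 * vf cd V.c := by
      rw [hk]
      field_simp
    calc |V.mu| * V.kk * V.s = 2 * (|V.mu| * vf cd V.c) := by rw [mul_assoc, h2]; ring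
      _ ≤ 2 * (ε * (1 + 98 * ε) / 4) := by linarith
      _ = ε / 2 * (1 + 98 * ε) := by ring
  -- the distance between labels
  have hd1 : ∀ V : Gap cd, ∀ t : ℝ, |Nf cd t - V.N| ≤ 1 := by
    intro V t
    obtain ⟨-, h2, h3, -⟩ := q1 t
    obtain ⟨-, h4, h5, -⟩ := q4 V
    rw [abs_le]
    constructor <;> linarith
  have r4 : ∀ (V : Gap cd) (t : ℝ), |Nf cd t - V.N| * (|V.mu| + 1) ≤ 9 / 10 →
      ∀ W : Gap cd, W ≠ V → t ∈ Icc W.a W.b → 1 / 10 ≤ |W.mu| * |W.N - V.N| := by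
    intro V t ht W hW htW
    have h1 : Nf cd t = W.N := W.lab t htW
    rw [h1] at ht
    have h2 := q8 V W (Ne.symm hW)
    have h3 := hd1 V t
    rw [h1] at h3
    rw [abs_sub_comm V.N W.N] at h2
    have h4 : |V.mu - W.mu| ≤ |V.mu| + |W.mu| := abs_sub _ _
    have h5 : 0 ≤ |W.N - V.N| := abs_nonneg _
    nlinarith [mul_le_mul_of_nonneg_left h4 h5, mul_nonneg h5 h5, mul_le_mul_of_nonneg_left h3 h5]
  refine ⟨r1, r2, ?_, ?_⟩
  · intro V hV t ht
    have hs := s_pos V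
    have hk : 0 < V.kk := (q4 V).2.2.2.2.2.1
    have h1 := r1 V (V.s / (4 * ε)) t (by positivity) ht
    have h2 := r2 V
    have h3 : Real.sqrt ((V.s / (4 * ε)) ^ 2 + V.s ^ 2 / 4) ≤ V.s / (4 * ε) * (1 + 2 * ε ^ 2) := by
      apply Real.sqrt_le_iff.mpr
      refine ⟨by positivity, ?_⟩
      have h4 : (V.s / (4 * ε) * (1 + 2 * ε ^ 2)) ^ 2 - ((V.s / (4 * ε)) ^ 2 + V.s ^ 2 / 4) =
          (V.s / (4 * ε)) ^ 2 * (4 * ε ^ 4) := by
        field_simp
        ring
      have h5 : 0 ≤ (V.s / (4 * ε)) ^ 2 * (4 * ε ^ 4) := by positivity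
      linarith
    have hmp := hmu0 V
    have h6 : |V.mu| + 1 ≤ 1001 / 1000 * |V.mu| := by linarith
    have h7 : |Nf cd t - V.N| ≤ 7 * (V.s / (4 * ε) * (1 + 2 * ε ^ 2)) * V.kk := by
      refine h1.trans ?_
      have := mul_le_mul_of_nonneg_right h3 hk.le
      linarith
    calc |Nf cd t - V.N| * (|V.mu| + 1)
        ≤ (7 * (V.s / (4 * ε) * (1 + 2 * ε ^ 2)) * V.kk) * (1001 / 1000 * |V.mu|) := by
          apply mul_le_mul h7 h6 (by positivity) (by positivity)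
      _ = 7007 / 4000 / ε * (1 + 2 * ε ^ 2) * (|V.mu| * V.kk * V.s) := by
          field_simp
          norm_num
      _ ≤ 7007 / 4000 / ε * (1 + 2 * ε ^ 2) * (ε / 2 * (1 + 98 * ε)) :=
          mul_le_mul_of_nonneg_left h2 (by positivity)
      _ = 7007 / 8000 * ((1 + 2 * ε ^ 2) * (1 + 98 * ε)) := by
          field_simp
          norm_num
      _ ≤ 9 / 10 := by
          have h8 : ε ^ 2 ≤ 1 / 10 ^ 5 * ε := by nlinarith
          have h9 : 1 + 2 * ε ^ 2 ≤ 1001 / 1000 := by nlinarith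
          have h10 : 1 + 98 * ε ≤ 1001 / 1000 := by norm_num at hε; linarith
          have h11 : (1 + 2 * ε ^ 2) * (1 + 98 * ε) ≤ 1001 / 1000 * (1001 / 1000) :=
            mul_le_mul h9 h10 (by positivity) (by norm_num)
          linarith
  · intro V t ht
    obtain ⟨hv0, hN0, hN1, hC⟩ := q1 t
    obtain ⟨-, hV0, hV1, -⟩ := q4 V
    obtain ⟨h9a, h9b⟩ := q9 V
    have hmp := hmu0 V
    have hpos : 0 < Nf cd t := by
      rcases hN0.eq_or_lt with h | h
      · exfalso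
        rw [← h, zero_sub, abs_neg, abs_of_pos hV0] at ht
        nlinarith
      · exact h
    have hlt : Nf cd t < 1 := by
      rcases hN1.eq_or_lt with h | h
      · exfalso
        rw [h, abs_of_pos (by linarith)] at ht
        nlinarith
      · exact h
    refine ⟨hpos, hlt, ?_, r4 V t ht⟩
    intro htV
    have hd0 := abs_nonneg (Nf cd t - V.N)
    rcases hv0.eq_or_lt with h | h
    · rw [← h]
      positivity
    · have htC : t ∉ C := by
        intro h2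
        rw [hC.mp h2] at h
        exact lt_irrefl _ h
      obtain ⟨W, hWa, hWb⟩ := q2 t htC hpos hlt
      have htW : t ∈ Icc W.a W.b := ⟨hWa.le, hWb.le⟩
      have hWV : W ≠ V := by
        intro h2
        rw [h2] at htW
        exact htV htW
      have h3 := r4 V t ht W hWV htW
      have h4 := hmv W t htW
      have h5 : Nf cd t = W.N := W.lab t htW
      rw [h5]
      have hmW := hmu0 W
      have h6 : |W.mu| * vf cd t ≤ |W.mu| * (3 * ε * |W.N - V.N|) := by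
        have h7 : 98 * ε ≤ 98 / 10 ^ 5 := by linarith
        have h8 : ε * (1 / 10) ≤ ε * (|W.mu| * |W.N - V.N|) :=
          mul_le_mul_of_nonneg_left h3 hε0.le
        nlinarith
      exact le_of_mul_le_mul_left h6 hmW

end

end Pool.Agent.Helper30.CV.Q4
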