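import Pool.Agent.Helper36.CV.StmtsR

set_option autoImplicit false

/-! Module R19: descent. -/

namespace Pool.Agent.Helper30.CV.R19

open Complex Filter Topology MeasureTheory Set Pointwise
open Pool.Agent.Helper36.CV

noncomputable section

theorem kids_of {ε cK : ℝ} {K : Set ℝ} {ι : Type} {lo hi t : ι → ℝ} {g : Fin 3 → ι → ι}
    (h : IsKD ε cK K lo hi t g) (j : ι) :
    Kids ε cK (t j) (lo j) (hi j) (lo (g 0 j)) (hi (g 0 j)) (lo (g 1 j)) (hi (g 1 j))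
      (lo (g 2 j)) (hi (g 2 j)) where
  lt := h.lt j
  tt := h.tv j
  e0 := h.lL j
  e2 := h.hR j
  n0 := h.nL j
  n2 := h.nR j
  n1 := h.nA j
  c1 := h.cA j

theorem kids_neg {ε cK τ l r l0 r0 l1 r1 l2 r2 : ℝ} (h : Kids ε cK τ l r l0 r0 l1 r1 l2 r2) :
    Kids ε cK (-τ) (-r) (-l) (-r2) (-l2) (-r1) (-l1) (-r0) (-l0) where
  lt := by linarith [h.lt]
  tt := by
    rcases h.tt with e | e | e
    · right
      right
      linarith
    · right
      left
      linarith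
    · left
      linarith
  e0 := by rw [h.e2]
  e2 := by rw [h.e0]
  n0 := by
    have := h.n2
    have e1 : -l2 - -r2 - ε * (1 + 2 * ε * -τ) * (-l - -r) =
      (r2 - l2) - ε * (1 - 2 * ε * τ) * (r - l) := by ring
    have e2 : -l - -r = r - l := by ring
    rw [e1, e2]
    exact this
  n2 := by
    have := h.n0
    have e1 : -l0 - -r0 - ε * (1 - 2 * ε * -τ) * (-l - -r) =
      (r0 - l0) - ε * (1 + 2 * ε * τ) * (r - l) := by ring
    have e2 : -l - -r = r - l := by ring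
    rw [e1, e2]
    exact this
  n1 := by
    have := h.n1
    have e1 : -l1 - -r1 - 4 * ε ^ 2 * (-l - -r) = (r1 - l1) - 4 * ε ^ 2 * (r - l) := by ring
    have e2 : -l - -r = r - l := by ring
    rw [e1, e2]
    exact this
  c1 := by
    have := h.c1
    have e1 : (-l1 + -r1) / 2 - (-l + -r) / 2 - 3 / 4 * -τ * ε * (-l - -r) =
      -((r1 + l1) / 2 - (r + l) / 2 - 3 / 4 * τ * ε * (r - l)) := by ring
    have e2 : -l - -r = r - l := by ring
    rw [e1, e2, abs_neg]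
    exact this

theorem isG_neg {C : Set ℝ} {a b : ℝ} (h : IsG C a b) : IsG (-C) (-b) (-a) := by
  obtain ⟨h1, h2, h3, h4⟩ := h
  refine ⟨by linarith, by simpa using h3, by simpa using h2, ?_⟩
  intro t ht htC
  rw [Set.mem_neg] at htC
  exact h4 (-t) ⟨by linarith [ht.2], by linarith [ht.1]⟩ htC

theorem pst_of_neg {C : Set ℝ} {ε l r : ℝ} (hr : ∀ a b : ℝ, a < b →
    (Wit ε a b l r ↔ Wit ε (-b) (-a) (-r) (-l))) (h : PSt (-C) ε (-r) (-l)) : PSt C ε l r := by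
  intro a b hab hw
  exact h (-b) (-a) (isG_neg hab) ((hr a b hab.1).1 hw)

theorem good_neg {Hm Hp : ℝ} {C : Set ℝ} {cd : CD Hm Hp C} {cd' : CD Hm Hp (-C)} {ε l r : ℝ}
    (hN : ∀ x, Nf cd' x = 1 - Nf cd (-x)) (e : Gap cd ≃ Gap cd')
    (he : ∀ V : Gap cd, (e V).a = -V.b ∧ (e V).b = -V.a ∧ (e V).m = -V.m) (h : Good cd ε l r) :
    Good cd' ε (-r) (-l) where
  inn := by
    intro t ht
    have h1 : |-t - (l + r) / 2| ≤ (r - l) / ε ^ 3 := by
      have e1 : -t - (l + r) / 2 = -(t - (-r + -l) / 2) := by ring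
      have e2 : -l - -r = r - l := by ring
      rw [e2] at ht
      rw [e1, abs_neg]
      exact ht
    obtain ⟨h2, h3⟩ := h.inn (-t) h1
    rw [hN]
    constructor <;> linarith
  big := by
    intro W hW
    obtain ⟨V, rfl⟩ := e.surjective W
    obtain ⟨h1, h2, h3⟩ := he V
    have h4 : V.Meets ((l + r) / 2) ((r - l) / ε ^ 3) := by
      obtain ⟨m1, m2⟩ := hW
      have e2 : -l - -r = r - l := by ring
      rw [h1, e2] at m1
      rw [h2, e2] at m2
      constructor <;> linarith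
    have h5 := h.big V h4
    have h6 : (e V).mu = -V.mu := by
      unfold Gap.mu
      rw [h3]
      push_cast
      ring
    rw [h6, abs_neg]
    exact h5

theorem st_R19 (hP2 : ST_P2) (hR0 : ST_R0) (hR1 : ST_R1) (hR10 : ST_R10) (hR18 : ST_R18)
    (hMR : ST_MR) : ST_R19 := by
  intro cK hcK
  obtain ⟨e0, he0, H0⟩ := hR0
  obtain ⟨e1, he1, H1⟩ := hR1 cK hcK
  obtain ⟨e2, he2, H10⟩ := hR10 cK hcK
  obtain ⟨e3, he3, H18⟩ := hR18 cK hcK
  refine ⟨min (min e0 e1) (min e2 e3), by positivity, ?_⟩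
  intro ε Hm Hp C cd hpar hε har K ι lo hi t g hKD j hgood hpst
  have hε0 : ε ≤ e0 := hε.trans ((min_le_left _ _).trans (min_le_left _ _))
  have hε1 : ε ≤ e1 := hε.trans ((min_le_left _ _).trans (min_le_right _ _))
  have hε2 : ε ≤ e2 := hε.trans ((min_le_right _ _).trans (min_le_left _ _))
  have hε3 : ε ≤ e3 := hε.trans ((min_le_right _ _).trans (min_le_right _ _))
  have hk := kids_of hKD j
  obtain ⟨hpos, hHm, hHp⟩ := hpar
  by_contra hcon
  push Not at hcon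
  have hn0 := (hcon 0).1
  have hn1 := (hcon 1).1
  have hn2 := (hcon 2).1
  obtain ⟨-, -, hgap, -⟩ := hP2 Hm Hp C cd hHm
  have hex : ∀ l r : ℝ, ¬ PSt C ε l r → ∃ V : Gap cd, Wit ε V.a V.b l r := by
    intro l r h
    unfold PSt at h
    push Not at h
    obtain ⟨a, b, hab, hw⟩ := h
    obtain ⟨V, hVa, hVb⟩ := hgap a b hab
    exact ⟨V, by rw [hVa, hVb]; exact hw⟩
  have hV : ∀ V : Gap cd, IsG C V.a V.b := fun V => ⟨V.lt, V.ha, V.hb, V.out⟩
  by_cases hcase : ∃ V0 : Gap cd, Wit ε V0.a V0.b (lo (g 0 j)) (hi (g 0 j)) ∧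
      Wit ε V0.a V0.b (lo (g 2 j)) (hi (g 2 j))
  · obtain ⟨V0, w0, w2⟩ := hcase
    have hnw : ¬ Wit ε V0.a V0.b (lo j) (hi j) := hpst V0.a V0.b (hV V0)
    rcases le_total (V0.a - lo j) (hi j - V0.b) with hfar | hfar
    · have hkY := kids_of hKD (g 2 j)
      have ht : t (g 2 j) = 1 := by
        rw [hKD.tc]
        norm_num
      rw [ht] at hkY
      have hC1 : C1 cd ε cK (t j) (lo j) (hi j) (lo (g 0 j)) (hi (g 0 j)) (lo (g 1 j))
          (hi (g 1 j)) (lo (g 2 j)) (hi (g 2 j)) (lo (g 0 (g 2 j))) (hi (g 0 (g 2 j)))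
          (lo (g 1 (g 2 j))) (hi (g 1 (g 2 j))) (lo (g 2 (g 2 j))) (hi (g 2 (g 2 j))) V0 :=
        ⟨hk, hkY, hgood, w0, w2, hnw, hfar⟩
      rcases H18 ε Hm Hp C cd ⟨hpos, hHm, hHp⟩ hε3 har _ _ _ _ _ _ _ _ _ _ _ _ _ _ _ V0 hC1
        with h | h | h
      · exact (hcon 2).2 0 h
      · exact (hcon 2).2 1 h
      · exact (hcon 2).2 2 h
    · obtain ⟨cd', -, hN', -, e, he⟩ := hMR Hm Hp C cd hHm
      have hkY := kids_neg (kids_of hKD (g 0 j))
      have ht : -t (g 0 j) = 1 := by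
        rw [hKD.tc]
        norm_num
      rw [ht] at hkY
      have hgood' := good_neg hN' e (fun V => ⟨(he V).1, (he V).2.1, (he V).2.2.1⟩) hgood
      have hea := (he V0).1
      have heb := (he V0).2.1
      have w0' : Wit ε (e V0).a (e V0).b (-hi (g 2 j)) (-lo (g 2 j)) := by
        rw [hea, heb]
        exact ((H0 ε _ _ _ _ hpos hε0 V0.lt (hKD.lt (g 2 j))).1).1 w2
      have w2' : Wit ε (e V0).a (e V0).b (-hi (g 0 j)) (-lo (g 0 j)) := by
        rw [hea, heb]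
        exact ((H0 ε _ _ _ _ hpos hε0 V0.lt (hKD.lt (g 0 j))).1).1 w0
      have hnw' : ¬ Wit ε (e V0).a (e V0).b (-hi j) (-lo j) := by
        rw [hea, heb]
        intro h
        exact hnw (((H0 ε _ _ _ _ hpos hε0 V0.lt (hKD.lt j)).1).2 h)
      have hfar' : (e V0).a - -hi j ≤ -lo j - (e V0).b := by
        rw [hea, heb]
        linarith
      have hC1 : C1 cd' ε cK (-t j) (-hi j) (-lo j) (-hi (g 2 j)) (-lo (g 2 j)) (-hi (g 1 j))
          (-lo (g 1 j)) (-hi (g 0 j)) (-lo (g 0 j)) (-hi (g 2 (g 0 j))) (-lo (g 2 (g 0 j)))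
          (-hi (g 1 (g 0 j))) (-lo (g 1 (g 0 j))) (-hi (g 0 (g 0 j))) (-lo (g 0 (g 0 j))) (e V0) :=
        ⟨kids_neg hk, hkY, hgood', w0', w2', hnw', hfar'⟩
      rcases H18 ε Hm Hp (-C) cd' ⟨hpos, hHm, hHp⟩ hε3 har _ _ _ _ _ _ _ _ _ _ _ _ _ _ _ (e V0)
        hC1 with h | h | h
      · exact (hcon 0).2 2 (pst_of_neg
          (fun a b hab => (H0 ε a b _ _ hpos hε0 hab (hKD.lt _)).1) h)
      · exact (hcon 0).2 1 (pst_of_neg
          (fun a b hab => (H0 ε a b _ _ hpos hε0 hab (hKD.lt _)).1) h)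
      · exact (hcon 0).2 0 (pst_of_neg
          (fun a b hab => (H0 ε a b _ _ hpos hε0 hab (hKD.lt _)).1) h)
  · push Not at hcase
    obtain ⟨VL, hVL⟩ := hex _ _ hn0
    obtain ⟨VR, hVR⟩ := hex _ _ hn2
    have hne : VL ≠ VR := by
      rintro rfl
      exact hcase VL hVL hVR
    have hsL : VL.s < 21 / 20 * (hi j - lo j) :=
      H1 C ε _ _ _ _ _ _ _ _ _ hpos hε1 hk hpst _ _ (hV VL) (Or.inl hVL)
    have hsR : VR.s < 21 / 20 * (hi j - lo j) :=
      H1 C ε _ _ _ _ _ _ _ _ _ hpos hε1 hk hpst _ _ (hV VR) (Or.inr hVR)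
    exact hn1 (H10 ε Hm Hp C cd ⟨hpos, hHm, hHp⟩ hε2 _ _ _ _ _ _ _ _ _ VL VR
      ⟨hk, hgood, hne, hVL, hVR, hsL, hsR⟩ hpst)

end

end Pool.Agent.Helper30.CV.R19
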